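import Pool.Agent.H789.HSC.KDefs
import Pool.Agent.H789.HSC.StepE
import Pool.Agent.H789.HSC.Final0

/-!
# MP_7c31d9_gt, Q1 (full answer)

For every `n ≥ 2` and every choice of `2n+1` hyperplanes in general position in `P^n`, the
complement carries a Kaehler metric with holomorphic sectional curvature `≤ -1`.
-/

open Pool.Agent.H789.HSC

/-- Let `n ≥ 2` and let `L_0, ..., L_{2n}` be linear forms on `ℂ^(n+1)` in general position.  There
are linear coordinates `c` of `ℂ^(n+1)` in which `L_0` is the first coordinate; for all such `c`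
the affine chart `z ↦ [c.pt z]` of `P^n` maps the open set `affCompl L c` of `ℂ^n` bijectively onto
`X = P^n \ (H_0 ∪ ... ∪ H_{2n})`, and `affCompl L c` carries a Kaehler metric all of whose
holomorphic sectional curvatures are `≤ -1`. -/
theorem Pool.Agent.Results.MP_7c31d9_gt.NegativeHSC.result :
    ∀ n : ℕ, 2 ≤ n → ∀ L : Fin (2 * n + 1) → Fin (n + 1) → ℂ, GenPos L →
      Nonempty (Coord (L 0)) ∧
      ∀ c : Coord (L 0),
        (∃ h : ∀ z : Fin n → ℂ, c.pt z ≠ 0,
          Set.BijOn (fun z : Fin n → ℂ => Projectivization.mk ℂ (c.pt z) (h z))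
            (affCompl L c) (projCompl L)) ∧
        ∃ G : KahlerMetricOn (affCompl L c),
          ∀ z ∈ affCompl L c, ∀ v : Fin n → ℂ, v ≠ 0 → hsc G.g z v ≤ -1 := by
  intro n hn L hL
  refine ⟨?_, fun c => ⟨chart_bijOn L c.T c.first, ?_⟩⟩
  · obtain ⟨T, hT⟩ := exists_coord L hL
    exact ⟨⟨T, hT⟩⟩
  · exact metric_of_level (by omega) (level_zero (by omega)) L hL c.T c.first
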